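import Mathlib

/-!
# Bounded denominators and the end points of Rogers' set
-/

open Set

namespace Pool.Agent.RGQ54

/-- The rational numbers in a finitely generated group of reals have bounded denominators. -/
theorem exists_den {S : Set ℝ} (hS : S.Finite) : ∃ N : ℕ, 0 < N ∧ ∀ r : ℚ,
    (r : ℝ) ∈ AddSubgroup.closure S → ∃ z : ℤ, (N : ℚ) * r = z := by
  set M : Submodule ℤ ℝ := Submodule.span ℤ S with hM
  have hMn : IsNoetherian ℤ M := isNoetherian_span_of_finite ℤ hS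
  set L : ℚ →ₗ[ℤ] ℝ := (Rat.castHom ℝ).toAddMonoidHom.toIntLinearMap with hL
  set U : Submodule ℤ ℚ := M.comap L with hU
  have hinj : Function.Injective (L.restrict (p := U) (q := M) fun x hx => hx) := by
    intro x y hxy
    have h1 : L x = L y := congrArg Subtype.val hxy
    have h2 : ((x : ℚ) : ℝ) = ((y : ℚ) : ℝ) := h1
    exact Subtype.ext (Rat.cast_injective h2)
  have hUn : IsNoetherian ℤ U := isNoetherian_of_injective _ hinj
  have hfg : U.FG := Module.Finite.iff_fg.1 inferInstance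
  clear hS
  obtain ⟨S, hS⟩ := hfg
  refine ⟨∏ q ∈ S, q.den, Finset.prod_pos fun q _ => q.den_pos, fun r hr => ?_⟩
  have hrU : r ∈ U := by
    show L r ∈ M
    have h1 : L r = (r : ℝ) := rfl
    rw [h1, hM, ← Submodule.mem_toAddSubgroup, Submodule.span_int_eq_addSubgroupClosure]
    exact hr
  rw [← hS] at hrU
  clear hr
  induction hrU using Submodule.span_induction with
  | mem x hx =>
    have hx' : x ∈ S := hx
    obtain ⟨c, hc⟩ := Finset.dvd_prod_of_mem (fun q : ℚ => q.den) hx'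
    refine ⟨c * x.num, ?_⟩
    have h1 : (x.den : ℚ) * x = x.num := Rat.den_mul_eq_num x
    push_cast
    have h2 : ((∏ q ∈ S, q.den : ℕ) : ℚ) = (x.den : ℚ) * c := by
      rw [hc]; push_cast; ring
    push_cast at h2
    rw [h2, ← h1]; ring
  | zero => exact ⟨0, by simp⟩
  | add x y _ _ hx hy =>
    obtain ⟨z, hz⟩ := hx
    obtain ⟨w, hw⟩ := hy
    exact ⟨z + w, by rw [mul_add, hz, hw]; push_cast; ring⟩
  | smul a x _ hx =>
    obtain ⟨z, hz⟩ := hx
    refine ⟨a * z, ?_⟩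
    rw [zsmul_eq_mul, Int.cast_mul, ← hz]; ring

theorem pow_le_of_eq {N : ℕ} (hN : 0 < N) {m : ℕ} {c z : ℤ} (hc : ¬ (3 : ℤ) ∣ c)
    (h : 2 * (N : ℤ) * c = z * 3 ^ m) : 3 ^ m ≤ N := by
  have h3 : Prime (3 : ℤ) := Int.prime_three
  have h2c : ¬ (3 : ℤ) ∣ 2 * c := fun hd => by
    rcases h3.dvd_or_dvd hd with h1 | h1
    · omega
    · exact hc h1
  have hcop : IsCoprime ((3 : ℤ) ^ m) (2 * c) :=
    IsCoprime.pow_left ((Irreducible.coprime_iff_not_dvd h3.irreducible).2 h2c)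
  have hdvd : (3 : ℤ) ^ m ∣ (2 * c) * N := ⟨z, by linarith⟩
  have h4 := hcop.dvd_of_dvd_mul_left hdvd
  have h5 := Int.le_of_dvd (by exact_mod_cast hN) h4
  exact_mod_cast h5

theorem arith {N k j : ℕ} (hN : 0 < N) (hk : N < 3 ^ k) {σ a z : ℤ} (hσ : σ = 1 ∨ σ = -1)
    (ha : a = 0 ∨ a = 1 ∨ a = 2)
    (h : 2 * (N : ℚ) * (σ / 3 ^ (k + 1) - a / 3 ^ (j + 1)) = z) : j = k ∧ a = 1 ∧ σ = 1 := by
  have hk1 : N < 3 ^ (k + 1) := hk.trans (Nat.pow_lt_pow_right (by norm_num) (Nat.lt_succ_self k))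
  have hσ3 : ¬ (3 : ℤ) ∣ σ := by rcases hσ with rfl | rfl <;> omega
  rcases ha with rfl | ha
  · -- `a = 0`
    exfalso
    have h1 : 2 * (N : ℤ) * σ = z * 3 ^ (k + 1) := by
      have : 2 * (N : ℚ) * σ = z * 3 ^ (k + 1) := by
        rw [← h]; push_cast; field_simp; ring
      exact_mod_cast this
    have := pow_le_of_eq hN hσ3 h1
    omega
  have ha3 : ¬ (3 : ℤ) ∣ a := by rcases ha with rfl | rfl <;> omega
  rcases lt_trichotomy j k with hjk | hjk | hjk
  · exfalso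
    obtain ⟨i, rfl⟩ : ∃ i, k = j + (i + 1) := ⟨k - j - 1, by omega⟩
    have h1 : 2 * (N : ℤ) * (σ - a * 3 ^ (i + 1)) = z * 3 ^ (j + (i + 1) + 1) := by
      have : 2 * (N : ℚ) * (σ - a * 3 ^ (i + 1)) = z * 3 ^ (j + (i + 1) + 1) := by
        rw [← h]
        have e1 : (3 : ℚ) ^ (j + (i + 1) + 1) = 3 ^ (j + 1) * 3 ^ (i + 1) := by ring
        rw [e1]; field_simp
      exact_mod_cast this
    have hc : ¬ (3 : ℤ) ∣ σ - a * 3 ^ (i + 1) := by
      intro hd
      have h2 : (3 : ℤ) ∣ a * 3 ^ (i + 1) := Dvd.dvd.mul_left (dvd_pow_self 3 (by omega)) a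
      have := (Int.dvd_iff_dvd_of_dvd_sub hd).2 h2
      exact hσ3 this
    have := pow_le_of_eq hN hc h1
    omega
  · subst hjk
    have h1 : 2 * (N : ℤ) * (σ - a) = z * 3 ^ (j + 1) := by
      have : 2 * (N : ℚ) * (σ - a) = z * 3 ^ (j + 1) := by
        rw [← h]; field_simp
      exact_mod_cast this
    rcases hσ with rfl | rfl
    · rcases ha with rfl | rfl
      · exact ⟨rfl, rfl, rfl⟩
      · exfalso
        have := pow_le_of_eq hN (c := 1 - 2) (by omega) h1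
        omega
    · rcases ha with rfl | rfl
      · exfalso
        have := pow_le_of_eq hN (c := -1 - 1) (by omega) h1
        omega
      · exfalso
        have h2 : 2 * (N : ℤ) * 1 = (-z) * 3 ^ j := by
          have : (3 : ℤ) ^ (j + 1) = 3 * 3 ^ j := by ring
          rw [this] at h1
          linarith
        have := pow_le_of_eq hN (c := 1) (by omega) h2
        omega
  · exfalso
    obtain ⟨i, rfl⟩ : ∃ i, j = k + (i + 1) := ⟨j - k - 1, by omega⟩
    have h1 : 2 * (N : ℤ) * (σ * 3 ^ (i + 1) - a) = z * 3 ^ (k + (i + 1) + 1) := by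
      have : 2 * (N : ℚ) * (σ * 3 ^ (i + 1) - a) = z * 3 ^ (k + (i + 1) + 1) := by
        rw [← h]
        have e1 : (3 : ℚ) ^ (k + (i + 1) + 1) = 3 ^ (k + 1) * 3 ^ (i + 1) := by ring
        rw [e1]; field_simp
      exact_mod_cast this
    have hc : ¬ (3 : ℤ) ∣ σ * 3 ^ (i + 1) - a := by
      intro hd
      have h2 : (3 : ℤ) ∣ σ * 3 ^ (i + 1) := Dvd.dvd.mul_left (dvd_pow_self 3 (by omega)) σ
      have := (Int.dvd_iff_dvd_of_dvd_sub hd).1 h2
      exact ha3 this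
    have h2 := pow_le_of_eq hN hc h1
    have h3 : 3 ^ k ≤ 3 ^ (k + (i + 1) + 1) := Nat.pow_le_pow_right (by norm_num) (by omega)
    omega

/-- Far end points of Rogers' set are not equivalent to any other end point. -/
theorem lonely {G : AddSubgroup ℝ} {N k : ℕ} (hN : 0 < N) (hk : N < 3 ^ k)
    (hden : ∀ r : ℚ, (r : ℝ) ∈ G → ∃ z : ℤ, (N : ℚ) * r = z)
    {σ : ℤ} (hσ : σ = 1 ∨ σ = -1) {t : ℝ} (ht : t ∈ G)
    {d a : ℤ} {j : ℕ} (ha : a = 0 ∨ a = 1 ∨ a = 2)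
    (h : (σ : ℝ) * (1 - 1 / 3 ^ (k + 1)) + t = d / 2 - a / 3 ^ (j + 1)) :
    j = k ∧ a = 1 ∧ σ = 1 := by
  set r : ℚ := d / 2 - σ + (σ / 3 ^ (k + 1) - a / 3 ^ (j + 1)) with hr
  have hrt : (r : ℝ) = t := by
    rw [hr]; push_cast
    have : t = d / 2 - a / 3 ^ (j + 1) - (σ : ℝ) * (1 - 1 / 3 ^ (k + 1)) := by linarith
    rw [this]; ring
  obtain ⟨z, hz⟩ := hden r (by rw [hrt]; exact ht)
  refine arith hN hk (z := 2 * z - N * (d - 2 * σ)) hσ ha ?_
  push_cast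
  rw [← hz, hr]
  ring

end Pool.Agent.RGQ54
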