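import Pool.Agent.RGQ54.Two

/-!
# Translations from a group generated by two reals: finiteness of the reached set
-/

open Set Filter Topology Pointwise

namespace Pool.Agent.RGQ54

variable {n : ℕ}

theorem reach_mem {P : Fin n → Set ℝ} {g : Fin n → ℝ ≃ᵢ ℝ} {e : ℝ} {h : ℝ ≃ᵢ ℝ}
    (hh : Reach P g e h) : h = 1 ∨ ∃ j, h e ∈ frontier (P j) := by
  cases hh with
  | one => exact Or.inl rfl
  | step i j _ _ hj => exact Or.inr ⟨j, hj⟩

theorem exists_bound {P : Fin n → Set ℝ} (hPb : ∀ i, Bornology.IsBounded (P i)) (e : ℝ) :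
    ∃ M : ℝ, |e| ≤ M ∧ ∀ j, ∀ y ∈ frontier (P j), |y| ≤ M := by
  have h1 : Bornology.IsBounded ({e} ∪ ⋃ j, closure (P j)) :=
    Bornology.isBounded_singleton.union (Bornology.isBounded_iUnion.2 fun j => (hPb j).closure)
  obtain ⟨M, hM⟩ := h1.exists_norm_le
  refine ⟨M, hM e (Or.inl rfl), fun j y hy => hM y (Or.inr (mem_iUnion.2 ⟨j, hy.1⟩))⟩

/-- If the translations generate a cyclic group, finitely many motions are reached. -/
theorem finite_cyclic {P : Fin n → Set ℝ} {g : Fin n → ℝ ≃ᵢ ℝ} {e α β γ : ℝ}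
    (hPb : ∀ i, Bornology.IsBounded (P i)) {s a b : Fin n → Fin n → ℤ}
    (hr : ∀ i j, Rep α β ((g j)⁻¹ * g i) (s i j) (a i j) (b i j))
    (hγ : AddSubgroup.closure ({α, β} : Set ℝ) = AddSubgroup.closure {γ}) :
    {h | Reach P g e h}.Finite := by
  obtain ⟨M, hM, hMf⟩ := exists_bound hPb e
  obtain ⟨L, hL⟩ := exists_L a
  set S : Set ℝ := {τ | τ ∈ AddSubgroup.closure ({γ} : Set ℝ) ∧ |τ| ≤ 2 * M} with hS
  have hSf : S.Finite := by
    by_cases hγ0 : γ = 0
    · refine (Set.finite_singleton (0 : ℝ)).subset ?_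
      rintro τ ⟨hτ, _⟩
      obtain ⟨k, hk⟩ := AddSubgroup.mem_closure_singleton.1 hτ
      rw [hγ0, smul_zero] at hk
      exact hk.symm
    · obtain ⟨K, hK⟩ := exists_nat_ge (2 * M / |γ|)
      refine ((Set.finite_Icc (-(K : ℤ)) K).image fun k : ℤ => k • γ).subset ?_
      rintro τ ⟨hτ, hτM⟩
      obtain ⟨k, hk⟩ := AddSubgroup.mem_closure_singleton.1 hτ
      refine ⟨k, ?_, hk⟩
      have hγp : 0 < |γ| := abs_pos.2 hγ0
      have h1 : |(k : ℝ)| * |γ| ≤ 2 * M := by
        rw [← abs_mul, ← zsmul_eq_mul, hk]; exact hτM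
      have h2 : |(k : ℝ)| ≤ K := ((le_div_iff₀ hγp).2 h1).trans hK
      have h3 : |k| ≤ (K : ℤ) := by exact_mod_cast h2
      exact abs_le.1 h3
  refine (finite_of_trans hSf).subset fun h hh => ?_
  obtain ⟨σ, u, v, hσ, -⟩ := chain hr hL h hh
  refine ⟨σ, hσ.1, u * α + v * β, ⟨?_, ?_⟩, hσ.2⟩
  · rw [← hγ]; exact mem_of_rep hσ
  · have h1 : |h e| ≤ M := by
      rcases reach_mem hh with rfl | ⟨j, hj⟩
      · exact hM
      · exact hMf j _ hj
    have h2 : (u * α + v * β : ℝ) = h e - σ * e := by rw [hσ.2 e]; ring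
    have h3 : |(σ : ℝ) * e| ≤ M := by
      rw [abs_mul]
      have : |(σ : ℝ)| = 1 := by rcases hσ.1 with h | h <;> simp [h]
      rw [this, one_mul]; exact hM
    rw [h2]
    calc |h e - σ * e| ≤ |h e| + |(σ : ℝ) * e| := abs_sub _ _
      _ ≤ 2 * M := by linarith

/-- If `α / β` is irrational, finitely many motions are reached. -/
theorem finite_irrational {P : Fin n → Set ℝ} {g : Fin n → ℝ ≃ᵢ ℝ} {e α β : ℝ}
    (hPo : ∀ i, IsOpen (P i)) (hPb : ∀ i, Bornology.IsBounded (P i)) {s a b : Fin n → Fin n → ℤ}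
    (hr : ∀ i j, Rep α β ((g j)⁻¹ * g i) (s i j) (a i j) (b i j)) (hirr : Irrational (α / β)) :
    {h | Reach P g e h}.Finite := by
  by_contra hinf
  obtain ⟨M, hM, hMf⟩ := exists_bound hPb e
  obtain ⟨L, hL⟩ := exists_L a
  have hβ : β ≠ 0 := by
    rintro rfl
    rw [div_zero] at hirr
    exact hirr.ne_zero rfl
  have hind : ∀ u v : ℤ, (u * α + v * β : ℝ) = 0 → u = 0 := by
    intro u v huv
    by_contra hu
    have hu' : (u : ℝ) ≠ 0 := by exact_mod_cast hu
    apply hirr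
    refine ⟨-v / u, ?_⟩
    push_cast
    rw [div_eq_div_iff hu' hβ]
    linarith
  have hβp : 0 < |β| := abs_pos.2 hβ
  -- motions with large first coordinate
  have hlarge : ∀ K : ℕ, ∃ h σ u v, Reach P g e h ∧ Rep α β h σ u v ∧ (K : ℤ) ≤ |u| ∧
      |u| ≤ K + L := by
    intro K
    by_contra hno
    push Not at hno
    apply hinf
    obtain ⟨K', hK'⟩ := exists_nat_ge ((2 * M + K * |α|) / |β|)
    have hSf : ((fun q : ℤ × ℤ => (q.1 * α + q.2 * β : ℝ)) ''
        (Set.Icc (-(K : ℤ)) K ×ˢ Set.Icc (-(K' : ℤ)) K')).Finite :=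
      ((Set.finite_Icc _ _).prod (Set.finite_Icc _ _)).image _
    refine (finite_of_trans hSf).subset fun h hh => ?_
    obtain ⟨σ, u, v, hσ, hN⟩ := chain hr hL h hh
    have huK : |u| ≤ K := by
      by_contra hlt
      push Not at hlt
      obtain ⟨h', σ', u', v', h1, h2, h3, h4⟩ := hN K hlt.le
      exact absurd h4 (not_le.2 (hno h' σ' u' v' h1 h2 h3))
    refine ⟨σ, hσ.1, u * α + v * β, ⟨(u, v), ⟨abs_le.1 huK, ?_⟩, rfl⟩, hσ.2⟩
    have h1 : |h e| ≤ M := by
      rcases reach_mem hh with rfl | ⟨j, hj⟩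
      · exact hM
      · exact hMf j _ hj
    have h2 : (v * β : ℝ) = h e - σ * e - u * α := by rw [hσ.2 e]; ring
    have h3 : |(σ : ℝ) * e| ≤ M := by
      rw [abs_mul]
      have : |(σ : ℝ)| = 1 := by rcases hσ.1 with h | h <;> simp [h]
      rw [this, one_mul]; exact hM
    have h4 : |(u : ℝ) * α| ≤ K * |α| := by
      rw [abs_mul]
      refine mul_le_mul_of_nonneg_right ?_ (abs_nonneg _)
      exact_mod_cast huK
    have h5 : |(v : ℝ)| * |β| ≤ 2 * M + K * |α| := by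
      rw [← abs_mul, h2]
      calc |h e - σ * e - u * α| ≤ |h e - σ * e| + |(u : ℝ) * α| := abs_sub _ _
        _ ≤ |h e| + |(σ : ℝ) * e| + |(u : ℝ) * α| := add_le_add_left (abs_sub _ _) _
        _ ≤ 2 * M + K * |α| := by linarith
    have h6 : |(v : ℝ)| ≤ K' := ((le_div_iff₀ hβp).2 h5).trans hK'
    have h7 : |v| ≤ (K' : ℤ) := by exact_mod_cast h6
    exact abs_le.1 h7
  -- the compact set `C`
  set F : Set ℝ := ⋃ j, frontier (P j) with hF
  have hFc : IsCompact F := isCompact_iUnion fun j =>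
    Metric.isCompact_of_isClosed_isBounded isClosed_frontier
      ((hPb j).closure.subset frontier_subset_closure)
  set E : Set ℝ := (fun k : ℤ => (k : ℝ)) '' Set.Icc (-(L : ℤ)) L with hE
  have hEf : E.Finite := (Set.finite_Icc _ _).image _
  set Sg : Set ℝ := (fun k : ℤ => (k : ℝ)) '' ({1, -1} : Set ℤ) with hSg
  have hSgf : Sg.Finite := (Set.toFinite _).image _
  set f : ℝ × (ℝ × (ℝ × ℝ)) → ℝ := fun q =>
    q.1 * q.2.2.2 + (1 - q.2.1) * e - q.2.2.1 * α with hf
  have hfc : Continuous f := by fun_prop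
  set C : Set ℝ := f '' (Sg ×ˢ (Sg ×ˢ (E ×ˢ F))) ∪ {e} with hC
  have hCc : IsCompact C :=
    ((hSgf.isCompact.prod (hSgf.isCompact.prod (hEf.isCompact.prod hFc))).image hfc).union
      isCompact_singleton
  set R : Set ℝ := Set.range (fun m : ℤ => (m : ℝ) * β) with hR
  have hRc : IsClosed R :=
    ((Homeomorph.mulRight₀ β hβ).isClosedEmbedding.comp
      Int.isClosedEmbedding_coe_real).isClosed_range
  have hWc : IsClosed (C + R) := hRc.add_left_of_isCompact hCc
  -- it contains the orbit of `e` under the translations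
  have hWT : ∀ t ∈ AddSubgroup.closure ({α, β} : Set ℝ), e + t ∈ C + R := by
    intro t ht
    obtain ⟨k, m, hkm⟩ := AddSubgroup.mem_closure_pair.1 ht
    rw [zsmul_eq_mul, zsmul_eq_mul] at hkm
    by_cases hk : k = 0
    · refine ⟨e, Or.inr rfl, m * β, ⟨m, rfl⟩, ?_⟩
      rw [← hkm, hk]; push_cast; ring
    · obtain ⟨h, σ, u, v, hh, hσ, hu1, hu2⟩ := hlarge k.natAbs
      rw [Int.natCast_natAbs] at hu1 hu2
      rcases reach_mem hh with rfl | ⟨j, hj⟩
      · exfalso
        have h0 := hσ.2 0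
        have h1 : (1 : ℝ ≃ᵢ ℝ) 0 = 0 := rfl
        rw [h1, mul_zero, zero_add] at h0
        have := hind u v h0.symm
        rw [this, abs_zero] at hu1
        exact hk (abs_nonpos_iff.1 hu1)
      · obtain ⟨r, d, hr', hd, hrd⟩ : ∃ r d : ℤ, (r = 1 ∨ r = -1) ∧ |d| ≤ L ∧ r * u = k + d := by
          rcases le_or_gt 0 k with h1 | h1 <;> rcases le_or_gt 0 u with h2 | h2
          · rw [abs_of_nonneg h1, abs_of_nonneg h2] at hu1 hu2
            exact ⟨1, u - k, Or.inl rfl, abs_le.2 ⟨by omega, by omega⟩, by omega⟩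
          · rw [abs_of_nonneg h1, abs_of_neg h2] at hu1 hu2
            exact ⟨-1, -u - k, Or.inr rfl, abs_le.2 ⟨by omega, by omega⟩, by omega⟩
          · rw [abs_of_neg h1, abs_of_nonneg h2] at hu1 hu2
            exact ⟨-1, -u - k, Or.inr rfl, abs_le.2 ⟨by omega, by omega⟩, by omega⟩
          · rw [abs_of_neg h1, abs_of_neg h2] at hu1 hu2
            exact ⟨1, u - k, Or.inl rfl, abs_le.2 ⟨by omega, by omega⟩, by omega⟩
        have hrσ : r * σ ∈ ({1, -1} : Set ℤ) := by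
          rcases hr' with rfl | rfl <;> rcases hσ.1 with h1 | h1 <;> simp [h1]
        refine ⟨f ((r : ℝ), ((r * σ : ℤ) : ℝ), (d : ℝ), h e), Or.inl ⟨_, ⟨⟨r, hr', rfl⟩,
          ⟨r * σ, hrσ, rfl⟩, ⟨d, abs_le.1 hd, rfl⟩, mem_iUnion.2 ⟨j, hj⟩⟩, rfl⟩,
          ((m - r * v : ℤ) : ℝ) * β, ⟨m - r * v, rfl⟩, ?_⟩
        have e1 : (r : ℝ) * u = k + d := by exact_mod_cast hrd
        show (r : ℝ) * h e + (1 - ((r * σ : ℤ) : ℝ)) * e - d * α + ((m - r * v : ℤ) : ℝ) * β = e + t
        rw [hσ.2 e, ← hkm]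
        push_cast
        linear_combination α * e1
  -- so it is everything
  have hdense : Dense (AddSubgroup.closure ({α, β} : Set ℝ) : Set ℝ) :=
    dense_addSubgroupClosure_pair_iff.2 hirr
  have hall : ∀ x : ℝ, x ∈ C + R := by
    intro x
    have hcl : IsClosed {t : ℝ | e + t ∈ C + R} := hWc.preimage (continuous_add_left e)
    have h1 : closure (AddSubgroup.closure ({α, β} : Set ℝ) : Set ℝ) ⊆ {t : ℝ | e + t ∈ C + R} :=
      closure_minimal hWT hcl
    have h2 : x - e ∈ {t : ℝ | e + t ∈ C + R} := h1 (hdense _)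
    have h3 : e + (x - e) ∈ C + R := h2
    rwa [add_sub_cancel] at h3
  -- but it is meagre
  have hres1 : ∀ᶠ x in residual ℝ, ∀ m : ℤ, x ≠ e + m * β :=
    eventually_countable_forall.2 fun m =>
      residual_of_dense_open isOpen_compl_singleton (dense_compl_singleton _)
  have hres2 : ∀ᶠ x in residual ℝ, ∀ r ρ m d : ℤ, ∀ j, (r = 1 ∨ r = -1) →
      (r : ℝ) * (x + (-(m * β) - (1 - ρ) * e + d * α)) ∉ frontier (P j) := by
    refine eventually_countable_forall.2 fun r => eventually_countable_forall.2 fun ρ =>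
      eventually_countable_forall.2 fun m => eventually_countable_forall.2 fun d =>
      eventually_countable_forall.2 fun j => ?_
    by_cases hr' : r = 1 ∨ r = -1
    · filter_upwards [affine_residual (hPo j) hr' (-(m * β) - (1 - ρ) * e + d * α)] with x hx _
      exact hx
    · exact Eventually.of_forall fun x h => absurd h hr'
  obtain ⟨x, hx1, hx2⟩ := (dense_of_mem_residual (hres1.and hres2)).nonempty
  obtain ⟨c, hc, w, ⟨m, rfl⟩, hx⟩ := hall x
  have hx' : c + (m : ℝ) * β = x := hx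
  rcases hc with ⟨⟨_, _, _, y⟩, ⟨⟨r, hr', rfl⟩, ⟨ρ, hρ, rfl⟩, ⟨d, hd, rfl⟩, hy⟩, rfl⟩ | hc
  · obtain ⟨j, hj⟩ := mem_iUnion.1 hy
    refine hx2 r ρ m d j hr' ?_
    have hrr : (r : ℝ) * r = 1 := by
      rcases hr' with h | h
      · rw [h]; norm_num
      · rw [mem_singleton_iff] at h; rw [h]; norm_num
    have hfx : (r : ℝ) * y + (1 - (ρ : ℝ)) * e - (d : ℝ) * α + (m : ℝ) * β = x := hx'
    have : (r : ℝ) * (x + (-(m * β) - (1 - ρ) * e + d * α)) = y := by
      rw [← hfx]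
      linear_combination y * hrr
    rw [this]; exact hj
  · rw [mem_singleton_iff] at hc
    exact hx1 m (by rw [← hx', hc])

end Pool.Agent.RGQ54
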