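import Pool.Agent.RGQ54.Two

/-!
# Infinite simple paths do not live in countable compact sets
-/

open Set Filter Topology

namespace Pool.Agent.RGQ54

section paths

variable {ι : Type*} [Finite ι] [TopologicalSpace ι] [DiscreteTopology ι]

/-- Products of the moves along a word. -/
def hp (mv : ι → ℝ ≃ᵢ ℝ) (w : ℕ → ι) : ℕ → ℝ ≃ᵢ ℝ
  | 0 => 1
  | m + 1 => mv (w m) * hp mv w m

omit [Finite ι] [TopologicalSpace ι] [DiscreteTopology ι] in
theorem hp_congr {mv : ι → ℝ ≃ᵢ ℝ} {w w' : ℕ → ι} {N : ℕ} (h : ∀ k < N, w k = w' k) :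
    ∀ m ≤ N, hp mv w m = hp mv w' m := by
  intro m
  induction m with
  | zero => intro _; rfl
  | succ m ih =>
    intro hm
    rw [hp, hp, h m (by omega), ih (by omega)]

omit [Finite ι] [TopologicalSpace ι] [DiscreteTopology ι] in
theorem hp_shift (mv : ι → ℝ ≃ᵢ ℝ) (w : ℕ → ι) (n m : ℕ) :
    hp mv w (n + m) = hp mv (fun k => w (n + k)) m * hp mv w n := by
  induction m with
  | zero => simp [hp]
  | succ m ih =>
    rw [← add_assoc, hp, hp, ih, mul_assoc]

omit [Finite ι] in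
theorem hp_loc (mv : ι → ℝ ≃ᵢ ℝ) (m : ℕ) :
    IsLocallyConstant (fun w : ℕ → ι => hp mv w m) := by
  induction m with
  | zero => exact IsLocallyConstant.const 1
  | succ m ih =>
    have h1 : IsLocallyConstant (fun w : ℕ → ι => mv (w m)) :=
      (IsLocallyConstant.of_discrete mv).comp_continuous (continuous_apply m)
    exact h1.mul ih

omit [Finite ι] in
theorem hp_cont (mv : ι → ℝ ≃ᵢ ℝ) (m : ℕ) :
    Continuous (fun z : ℝ × (ℕ → ι) => hp mv z.2 m z.1) := by
  induction m with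
  | zero => exact continuous_fst
  | succ m ih =>
    have h1 : Continuous (fun q : ι × ℝ => mv q.1 q.2) :=
      continuous_prod_of_discrete_left.2 fun i => (mv i).continuous
    exact h1.comp (((continuous_apply m).comp continuous_snd).prodMk ih)

/-- Simple paths of length `N` in `K`. -/
def SP (mv : ι → ℝ ≃ᵢ ℝ) (K : Set ℝ) (N : ℕ) : Set (ℝ × (ℕ → ι)) :=
  {z | (∀ a b, a < b → b ≤ N → hp mv z.2 a ≠ hp mv z.2 b) ∧ ∀ m ≤ N, hp mv z.2 m z.1 ∈ K}

/-- Infinite simple paths in `K`. -/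
def SI (mv : ι → ℝ ≃ᵢ ℝ) (K : Set ℝ) : Set (ℝ × (ℕ → ι)) :=
  {z | (∀ a b, a < b → hp mv z.2 a ≠ hp mv z.2 b) ∧ ∀ m, hp mv z.2 m z.1 ∈ K}

omit [Finite ι] in
theorem SP_closed {mv : ι → ℝ ≃ᵢ ℝ} {K : Set ℝ} (hK : IsClosed K) (N : ℕ) :
    IsClosed (SP mv K N) := by
  have h1 : ∀ a b, IsClosed {z : ℝ × (ℕ → ι) | hp mv z.2 a ≠ hp mv z.2 b} := by
    intro a b
    have h2 : IsLocallyConstant (fun w : ℕ → ι => (hp mv w a, hp mv w b)) :=
      (hp_loc mv a).prodMk (hp_loc mv b)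
    have h3 : IsOpen {w : ℕ → ι | hp mv w a = hp mv w b} := h2 {p | p.1 = p.2}
    have h4 : IsOpen {z : ℝ × (ℕ → ι) | hp mv z.2 a = hp mv z.2 b} := h3.preimage continuous_snd
    exact isClosed_compl_iff.2 h4
  have h5 : SP mv K N = (⋂ a, ⋂ b, ⋂ (_ : a < b), ⋂ (_ : b ≤ N),
      {z : ℝ × (ℕ → ι) | hp mv z.2 a ≠ hp mv z.2 b}) ∩
      ⋂ m, ⋂ (_ : m ≤ N), (fun z : ℝ × (ℕ → ι) => hp mv z.2 m z.1) ⁻¹' K := by
    ext z
    simp only [mem_inter_iff, mem_iInter]
    rfl
  rw [h5]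
  exact (isClosed_iInter fun a => isClosed_iInter fun b => isClosed_iInter fun _ =>
    isClosed_iInter fun _ => h1 a b).inter
    (isClosed_iInter fun m => isClosed_iInter fun _ => hK.preimage (hp_cont mv m))

theorem SP_compact {mv : ι → ℝ ≃ᵢ ℝ} {K : Set ℝ} (hK : IsCompact K) (N : ℕ) :
    IsCompact (SP mv K N) :=
  (hK.prod (isCompact_univ (X := ℕ → ι))).of_isClosed_subset (SP_closed hK.isClosed N)
    fun z hz => ⟨hz.2 0 (Nat.zero_le _), mem_univ _⟩

omit [Finite ι] [TopologicalSpace ι] [DiscreteTopology ι] in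
theorem SI_eq (mv : ι → ℝ ≃ᵢ ℝ) (K : Set ℝ) : SI mv K = ⋂ N, SP mv K N := by
  ext z
  simp only [mem_iInter]
  constructor
  · exact fun h N => ⟨fun a b hab _ => h.1 a b hab, fun m _ => h.2 m⟩
  · exact fun h => ⟨fun a b hab => (h b).1 a b hab le_rfl, fun m => (h m).2 m le_rfl⟩

theorem SI_compact {mv : ι → ℝ ≃ᵢ ℝ} {K : Set ℝ} (hK : IsCompact K) : IsCompact (SI mv K) := by
  rw [SI_eq]
  exact (SP_compact hK 0).of_isClosed_subset (isClosed_iInter fun N => SP_closed hK.isClosed N)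
    (iInter_subset _ 0)

theorem SI_nonempty {mv : ι → ℝ ≃ᵢ ℝ} {K : Set ℝ} (hK : IsCompact K)
    (h : ∀ N, (SP mv K N).Nonempty) : (SI mv K).Nonempty := by
  rw [SI_eq]
  refine IsCompact.nonempty_iInter_of_sequence_nonempty_isCompact_isClosed _ (fun N z hz => ?_) h
    (SP_compact hK 0) fun N => SP_closed hK.isClosed N
  exact ⟨fun a b hab hb => hz.1 a b hab (by omega), fun m hm => hz.2 m (by omega)⟩

omit [Finite ι] [TopologicalSpace ι] [DiscreteTopology ι] in
theorem SI_shift {mv : ι → ℝ ≃ᵢ ℝ} {K : Set ℝ} {z : ℝ × (ℕ → ι)} (hz : z ∈ SI mv K) (n : ℕ) :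
    (hp mv z.2 n z.1, fun k => z.2 (n + k)) ∈ SI mv K := by
  refine ⟨fun a b hab h => hz.1 (n + a) (n + b) (by omega) ?_, fun m => ?_⟩
  · rw [hp_shift, hp_shift mv z.2 n b]
    exact congrArg (· * hp mv z.2 n) h
  · have h1 : hp mv (fun k => z.2 (n + k)) m (hp mv z.2 n z.1) = hp mv z.2 (n + m) z.1 := by
      rw [hp_shift]; rfl
    show hp mv (fun k => z.2 (n + k)) m (hp mv z.2 n z.1) ∈ K
    rw [h1]; exact hz.2 _

omit [Finite ι] [TopologicalSpace ι] [DiscreteTopology ι] in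
theorem finite_attained {mv : ι → ℝ ≃ᵢ ℝ} {K : Set ℝ} {z : ℝ × (ℕ → ι)} (hz : z ∈ SI mv K)
    (y : ℝ) : {n | hp mv z.2 n z.1 = y}.Finite := by
  have h1 : {h : ℝ ≃ᵢ ℝ | h z.1 = y}.Finite := by
    refine (finite_of_trans (S := {y - z.1, y + z.1}) (toFinite _)).subset ?_
    intro h hh
    obtain ⟨σ, hσ, hx⟩ := iso_form h
    refine ⟨σ, hσ, h 0, ?_, hx⟩
    have h2 := hx z.1
    have h3 : h z.1 = y := hh
    rw [h3] at h2
    rcases hσ with rfl | rfl
    · left; push_cast at h2; linarith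
    · right; push_cast at h2; show h 0 = _; linarith
  refine Set.Finite.of_finite_image (f := fun n => hp mv z.2 n) (h1.subset ?_) ?_
  · rintro _ ⟨n, hn, rfl⟩; exact hn
  · intro a _ b _ hab
    by_contra hne
    rcases lt_or_gt_of_ne hne with h | h
    · exact hz.1 a b h hab
    · exact hz.1 b a h hab.symm

theorem SI_derived {mv : ι → ℝ ≃ᵢ ℝ} {K : Set ℝ} (hK : IsCompact K) (h : (SI mv K).Nonempty) :
    (SI mv (derivedSet K)).Nonempty := by
  obtain ⟨z, hz⟩ := h
  obtain ⟨z', hz', φ, hφ, hlim⟩ := (SI_compact (mv := mv) hK).tendsto_subseq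
    (x := fun n => (hp mv z.2 n z.1, fun k => z.2 (n + k))) (fun n => SI_shift hz n)
  refine ⟨z', hz'.1, fun m => ?_⟩
  have h1 : Tendsto (fun k => hp mv z.2 (φ k + m) z.1) atTop (𝓝 (hp mv z'.2 m z'.1)) := by
    have h2 := ((hp_cont mv m).tendsto z').comp hlim
    refine h2.congr fun k => ?_
    show hp mv (fun j => z.2 (φ k + j)) m (hp mv z.2 (φ k) z.1) = _
    rw [hp_shift]; rfl
  show AccPt _ (𝓟 K)
  rw [accPt_iff_frequently]
  have h3 : ∀ᶠ k in atTop, hp mv z.2 (φ k + m) z.1 ≠ hp mv z'.2 m z'.1 := by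
    have hf := finite_attained hz (hp mv z'.2 m z'.1)
    have hinj : Function.Injective (fun k => φ k + m) := fun a b hab =>
      hφ.injective (by simpa using hab)
    have h4 : {k | hp mv z.2 (φ k + m) z.1 = hp mv z'.2 m z'.1}.Finite :=
      hf.preimage hinj.injOn
    rw [← Nat.cofinite_eq_atTop]
    exact h4.compl_mem_cofinite
  have h4 : ∀ᶠ k in atTop, hp mv z.2 (φ k + m) z.1 ≠ hp mv z'.2 m z'.1 ∧
      hp mv z.2 (φ k + m) z.1 ∈ K := h3.mono fun k hk => ⟨hk, hz.2 _⟩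
  exact h1.frequently h4.frequently

theorem SI_countable {mv : ι → ℝ ≃ᵢ ℝ} {F : Set ℝ} (hF : IsCompact F) (hFc : F.Countable) :
    ¬ (SI mv F).Nonempty := by
  intro hne
  set 𝒮 : Set (Set ℝ) := {K | IsCompact K ∧ (SI mv K).Nonempty} with h𝒮
  obtain ⟨K, hKF, hmin⟩ := zorn_superset_nonempty 𝒮 (by
    intro c hc hchain hcne
    obtain ⟨K₀, hK₀⟩ := hcne
    refine ⟨⋂₀ c, ⟨?_, ?_⟩, fun s hs => sInter_subset_of_mem hs⟩
    · exact (hc hK₀).1.of_isClosed_subset (isClosed_sInter fun K hK => (hc hK).1.isClosed)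
        (sInter_subset_of_mem hK₀)
    · have h1 : SI mv (⋂₀ c) = ⋂ K : c, SI mv K.1 := by
        ext z
        simp only [mem_iInter]
        constructor
        · exact fun h K => ⟨h.1, fun m => mem_sInter.1 (h.2 m) _ K.2⟩
        · exact fun h => ⟨(h ⟨K₀, hK₀⟩).1, fun m => mem_sInter.2 fun K hK => (h ⟨K, hK⟩).2 m⟩
      rw [h1]
      have : Nonempty c := ⟨⟨K₀, hK₀⟩⟩
      refine IsCompact.nonempty_iInter_of_directed_nonempty_isCompact_isClosed _ ?_
        (fun K => (hc K.2).2) (fun K => SI_compact (hc K.2).1)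
        fun K => (SI_compact (hc K.2).1).isClosed
      intro K K'
      rcases hchain.total K.2 K'.2 with h | h
      · exact ⟨K, fun z hz => hz, fun z hz => ⟨hz.1, fun m => h (hz.2 m)⟩⟩
      · exact ⟨K', fun z hz => ⟨hz.1, fun m => h (hz.2 m)⟩, fun z hz => hz⟩) F ⟨hF, hne⟩
  have hK := hmin.prop
  have h1 : derivedSet K ⊆ K := (isClosed_iff_derivedSet_subset K).1 hK.1.isClosed
  have h2 : derivedSet K ∈ 𝒮 :=
    ⟨hK.1.of_isClosed_subset (isClosed_derivedSet K) h1, SI_derived hK.1 hK.2⟩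
  have h3 : K ⊆ derivedSet K := hmin.le_of_le h2 h1
  have h4 : Perfect K := perfect_iff_eq_derivedSet.2 (subset_antisymm h3 h1)
  obtain ⟨z, hz⟩ := hK.2
  obtain ⟨f, hf, _, hinj⟩ := h4.exists_nat_bool_injection ⟨_, hz.2 0⟩
  have h5 : (range f).Countable := hFc.mono (hf.trans hKF)
  have h6 : Countable (ℕ → Bool) := by
    have := h5.to_subtype
    exact (rangeFactorization_injective.2 hinj).countable
  obtain ⟨r, hr⟩ := exists_surjective_nat (ℕ → Bool)
  obtain ⟨k, hk⟩ := hr fun m => !(r m m)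
  have h7 := congrFun hk k
  simp at h7

end paths

variable {n : ℕ}

/-- Motions reached in `N` steps. -/
inductive RN (P : Fin n → Set ℝ) (g : Fin n → ℝ ≃ᵢ ℝ) (e : ℝ) : ℕ → (ℝ ≃ᵢ ℝ) → Prop
  | one : RN P g e 0 1
  | step {N : ℕ} {h : ℝ ≃ᵢ ℝ} (i j : Fin n) (hh : RN P g e N h) (hi : h e ∈ frontier (P i))
      (hj : ((g j)⁻¹ * (g i * h)) e ∈ frontier (P j)) : RN P g e (N + 1) ((g j)⁻¹ * (g i * h))

theorem reach_iff {P : Fin n → Set ℝ} {g : Fin n → ℝ ≃ᵢ ℝ} {e : ℝ} {h : ℝ ≃ᵢ ℝ}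
    (hh : Reach P g e h) : ∃ N, RN P g e N h := by
  induction hh with
  | one => exact ⟨0, RN.one⟩
  | step i j _ hi hj ih =>
    obtain ⟨N, hN⟩ := ih
    exact ⟨N + 1, RN.step i j hN hi hj⟩

theorem RN_finite {P : Fin n → Set ℝ} {g : Fin n → ℝ ≃ᵢ ℝ} {e : ℝ} (N : ℕ) :
    {h | RN P g e N h}.Finite := by
  induction N with
  | zero =>
    refine (finite_singleton (1 : ℝ ≃ᵢ ℝ)).subset ?_
    intro h hh
    cases hh
    rfl
  | succ N ih =>
    have h1 : (⋃ i : Fin n, ⋃ j : Fin n,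
        (fun h => (g j)⁻¹ * (g i * h)) '' {h | RN P g e N h}).Finite :=
      finite_iUnion fun i => finite_iUnion fun j => ih.image _
    refine h1.subset ?_
    intro h hh
    cases hh with
    | step i j hh' _ _ => exact mem_iUnion.2 ⟨i, mem_iUnion.2 ⟨j, _, hh', rfl⟩⟩

/-- The moves. -/
def moves (g : Fin n → ℝ ≃ᵢ ℝ) (q : Fin n × Fin n) : ℝ ≃ᵢ ℝ := (g q.2)⁻¹ * g q.1

theorem exists_path {P : Fin n → Set ℝ} {g : Fin n → ℝ ≃ᵢ ℝ} {e : ℝ} (hn : Nonempty (Fin n))
    {N : ℕ} {h : ℝ ≃ᵢ ℝ} (hh : RN P g e N h) (hmin : ∀ M < N, ¬ RN P g e M h) :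
    ∃ w : ℕ → Fin n × Fin n, hp (moves g) w N = h ∧
      (∀ a ≤ N, RN P g e a (hp (moves g) w a) ∧ ∀ M < a, ¬ RN P g e M (hp (moves g) w a)) ∧
      ∀ a < N, ∃ i, hp (moves g) w a e ∈ frontier (P i) := by
  induction N generalizing h with
  | zero =>
    cases hh
    exact ⟨fun _ => (Classical.arbitrary _, Classical.arbitrary _), rfl, fun a ha => by
      obtain rfl : a = 0 := by omega
      exact ⟨RN.one, fun M hM => absurd hM (Nat.not_lt_zero _)⟩,
      fun a ha => absurd ha (Nat.not_lt_zero _)⟩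
  | succ N ih =>
    cases hh with
    | @step _ h' i j hh' hi hj =>
      obtain ⟨w, hw, hwa, hwf⟩ := ih hh' fun M hM hR =>
        hmin (M + 1) (by omega) (RN.step i j hR hi hj)
      have hc := hp_congr (mv := moves g) (w := Function.update w N (i, j)) (w' := w) (N := N)
        fun k hk => Function.update_of_ne (by omega) _ _
      have hend : hp (moves g) (Function.update w N (i, j)) (N + 1) = (g j)⁻¹ * (g i * h') := by
        rw [hp, hc N le_rfl, hw, Function.update_self]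
        exact mul_assoc _ _ _
      refine ⟨Function.update w N (i, j), hend, fun a ha => ?_, fun a ha => ?_⟩
      · rcases Nat.lt_or_ge N a with h1 | h1
        · obtain rfl : a = N + 1 := by omega
          rw [hend]
          exact ⟨RN.step i j hh' hi hj, hmin⟩
        · rw [hc a h1]; exact hwa a h1
      · rw [hc a (by omega)]
        rcases Nat.lt_or_ge a N with h1 | h1
        · exact hwf a h1
        · obtain rfl : a = N := by omega
          rw [hw]; exact ⟨i, hi⟩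

/-- If the boundaries of the pieces are countable, finitely many motions are reached. -/
theorem finite_countable {P : Fin n → Set ℝ} {g : Fin n → ℝ ≃ᵢ ℝ} {e : ℝ}
    (hPb : ∀ i, Bornology.IsBounded (P i)) (hPc : ∀ i, (frontier (P i)).Countable) :
    {h | Reach P g e h}.Finite := by
  by_contra hinf
  set F : Set ℝ := ⋃ j, frontier (P j) with hF
  have hFc : IsCompact F := isCompact_iUnion fun j =>
    Metric.isCompact_of_isClosed_isBounded isClosed_frontier
      ((hPb j).closure.subset frontier_subset_closure)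
  have hFcount : F.Countable := countable_iUnion hPc
  refine SI_countable (mv := moves g) hFc hFcount (SI_nonempty hFc fun N => ?_)
  -- a motion at distance `N + 1`
  have hfin : (⋃ M ∈ Set.Iic N, {h | RN P g e M h}).Finite :=
    (Set.finite_Iic N).biUnion fun M _ => RN_finite M
  obtain ⟨h, hh, hhN⟩ : ∃ h, Reach P g e h ∧ h ∉ ⋃ M ∈ Set.Iic N, {h | RN P g e M h} := by
    by_contra hno
    push Not at hno
    exact hinf (hfin.subset fun h hh => hno h hh)
  classical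
  have hex := reach_iff hh
  have hmin : ∀ M < Nat.find hex, ¬ RN P g e M h := fun M hM => Nat.find_min hex hM
  have hNlt : N < Nat.find hex := by
    by_contra hle
    exact hhN (mem_biUnion (x := Nat.find hex) (show _ ∈ Set.Iic N from not_lt.1 hle)
      (Nat.find_spec hex))
  have hn : Nonempty (Fin n) := by
    by_contra hne
    have hcases := Nat.find_spec hex
    rcases hL : Nat.find hex with _ | L
    · omega
    · rw [hL] at hcases
      cases hcases with
      | step i j _ _ _ => exact hne ⟨i⟩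
  obtain ⟨w, hw, hwa, hwf⟩ := exists_path hn (Nat.find_spec hex) hmin
  refine ⟨(e, w), fun a b hab hbN heq => ?_, fun m hm => ?_⟩
  · have h1 := (hwa a (by omega)).1
    have h2 := (hwa b (by omega)).2 a hab
    have heq' : hp (moves g) w a = hp (moves g) w b := heq
    rw [heq'] at h1
    exact h2 h1
  · obtain ⟨i, hi⟩ := hwf m (by omega)
    exact mem_iUnion.2 ⟨i, hi⟩

end Pool.Agent.RGQ54
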