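import Mathlib

/-!
# Equidecomposition by open pieces: a lonely jump point reaches infinitely far
-/

open Set Filter Topology

namespace Pool.Agent.RGQ54

variable {n : ℕ}

/-- The motions that are reached from the identity along the boundaries of the pieces over the
orbit of `e`. -/
inductive Reach (P : Fin n → Set ℝ) (g : Fin n → ℝ ≃ᵢ ℝ) (e : ℝ) : (ℝ ≃ᵢ ℝ) → Prop
  | one : Reach P g e 1
  | step {h : ℝ ≃ᵢ ℝ} (i j : Fin n) (hh : Reach P g e h) (hi : h e ∈ frontier (P i))
      (hj : ((g j)⁻¹ * (g i * h)) e ∈ frontier (P j)) : Reach P g e ((g j)⁻¹ * (g i * h))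

theorem compl_frontier_residual {U : Set ℝ} (hU : IsOpen U) : (frontier U)ᶜ ∈ residual ℝ := by
  refine residual_of_dense_open isClosed_frontier.isOpen_compl ?_
  rw [← interior_eq_empty_iff_dense_compl, ← frontier_compl]
  exact interior_frontier hU.isClosed_compl

theorem eventually_iff_of_notMem_frontier {X : Set ℝ} {y : ℝ} (hy : y ∉ frontier X) :
    ∀ᶠ z in 𝓝 y, (z ∈ X ↔ y ∈ X) := by
  by_cases h : y ∈ interior X
  · filter_upwards [isOpen_interior.mem_nhds h] with z hz
    exact ⟨fun _ => interior_subset h, fun _ => interior_subset hz⟩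
  · have h2 : y ∉ closure X := fun hc => hy ⟨hc, h⟩
    filter_upwards [isClosed_closure.isOpen_compl.mem_nhds h2] with z hz
    exact ⟨fun hz' => absurd (subset_closure hz') hz, fun hy' => absurd (subset_closure hy') h2⟩

theorem mem_piece {ι : Type*} [Finite ι] {Q : ι → Set ℝ} {y : ℝ} (hy : y ∈ closure (⋃ i, Q i))
    (hg : ∀ i, y ∉ frontier (Q i)) : ∃ i, y ∈ Q i := by
  rw [closure_iUnion_of_finite] at hy
  obtain ⟨i, hi⟩ := mem_iUnion.1 hy
  by_contra hne
  push Not at hne
  exact hg i ⟨hi, fun h => hne i (interior_subset h)⟩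

theorem notMem_of_frontier {U V : Set ℝ} (hU : IsOpen U) (hd : Disjoint U V) {y : ℝ}
    (hy : y ∈ frontier V) : y ∉ U := fun hyU =>
  (hd.closure_right hU).le_bot ⟨hyU, hy.1⟩

theorem notMem_of_frontier_self {U : Set ℝ} (hU : IsOpen U) {y : ℝ} (hy : y ∈ frontier U) :
    y ∉ U := fun hyU => hy.2 (by rwa [hU.interior_eq])

/-- **A lonely jump point reaches infinitely far.** -/
theorem reach_infinite {X Y : Set ℝ} {P : Fin n → Set ℝ} {g : Fin n → ℝ ≃ᵢ ℝ} {e : ℝ}
    (hPo : ∀ i, IsOpen (P i)) (hPd : Pairwise (fun i j => Disjoint (P i) (P j)))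
    (hgd : Pairwise (fun i j => Disjoint (g i '' P i) (g j '' P j)))
    (hX : interior (closure (⋃ i, P i)) = X) (hY : interior (closure (⋃ i, g i '' P i)) = Y)
    (heX : e ∉ X) (hXl : ∀ h, Reach P g e h → h ≠ 1 → h e ∉ frontier X)
    (hYl : ∀ f i, Reach P g e f → (g i * f) e ∉ frontier Y)
    (hjump : ∃ δ > 0, (∀ x ∈ Ioo (e - δ) e, x ∈ X) ∧ ∀ x ∈ Ioo e (e + δ), x ∉ X) :
    ¬ {h | Reach P g e h}.Finite := by
  intro hfin
  obtain ⟨δ, hδ, hj1, hj2⟩ := hjump
  have hPX : ∀ i, P i ⊆ X := fun i => by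
    rw [← hX]
    exact interior_maximal ((subset_iUnion P i).trans subset_closure) (hPo i)
  have hgo : ∀ i, IsOpen (g i '' P i) := fun i => (g i).toHomeomorph.isOpenMap _ (hPo i)
  have hPY : ∀ i, g i '' P i ⊆ Y := fun i => by
    rw [← hY]
    exact interior_maximal ((subset_iUnion (fun i => g i '' P i) i).trans subset_closure) (hgo i)
  -- a reached point is not in a piece
  have hout : ∀ h, Reach P g e h → ∀ i, h e ∉ P i := by
    intro h hh i
    cases hh with
    | one => exact fun hi => heX (hPX i hi)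
    | step i' j' _ _ hj =>
      by_cases hij : i = j'
      · subst hij; exact notMem_of_frontier_self (hPo _) hj
      · exact notMem_of_frontier (hPo i) (hPd hij) hj
  -- local conditions at `e`
  have evA : ∀ᶠ x in 𝓝 e, ∀ h ∈ {h | Reach P g e h}, ∀ i, h x ∈ P i → h e ∈ closure (P i) := by
    refine (eventually_all_finite hfin).2 fun h _ => eventually_all.2 fun i => ?_
    by_cases hc : h e ∈ closure (P i)
    · exact Eventually.of_forall fun _ _ => hc
    · have : ∀ᶠ x in 𝓝 e, h x ∉ closure (P i) :=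
        h.continuous.continuousAt.eventually (isClosed_closure.isOpen_compl.mem_nhds hc)
      filter_upwards [this] with x hx hx'
      exact absurd (subset_closure hx') hx
  have evB : ∀ᶠ x in 𝓝 e, ∀ h ∈ {h | Reach P g e h}, ∀ i j,
      ((g j)⁻¹ * (g i * h)) x ∈ P j → ((g j)⁻¹ * (g i * h)) e ∈ closure (P j) := by
    refine (eventually_all_finite hfin).2 fun h _ => eventually_all.2 fun i =>
      eventually_all.2 fun j => ?_
    by_cases hc : ((g j)⁻¹ * (g i * h)) e ∈ closure (P j)
    · exact Eventually.of_forall fun _ _ => hc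
    · have : ∀ᶠ x in 𝓝 e, ((g j)⁻¹ * (g i * h)) x ∉ closure (P j) :=
        ((g j)⁻¹ * (g i * h)).continuous.continuousAt.eventually
          (isClosed_closure.isOpen_compl.mem_nhds hc)
      filter_upwards [this] with x hx hx'
      exact absurd (subset_closure hx') hx
  have evC : ∀ᶠ x in 𝓝 e, ∀ h ∈ {h | Reach P g e h}, h ≠ 1 → (h x ∈ X ↔ h e ∈ X) := by
    refine (eventually_all_finite hfin).2 fun h hh => ?_
    by_cases h1 : h = 1
    · exact Eventually.of_forall fun _ hne => absurd h1 hne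
    · filter_upwards [h.continuous.continuousAt.eventually
        (eventually_iff_of_notMem_frontier (hXl h hh h1))] with x hx _
      exact hx
  have evD : ∀ᶠ x in 𝓝 e, ∀ h ∈ {h | Reach P g e h}, ∀ i,
      ((g i * h) x ∈ Y ↔ (g i * h) e ∈ Y) := by
    refine (eventually_all_finite hfin).2 fun h hh => eventually_all.2 fun i => ?_
    exact (g i * h).continuous.continuousAt.eventually
      (eventually_iff_of_notMem_frontier (hYl h i hh))
  obtain ⟨O, hO, hOo, heO⟩ := eventually_nhds_iff.1 (evA.and (evB.and (evC.and evD)))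
  -- generic points
  have hgen : ∀ᶠ x in residual ℝ, ∀ h ∈ {h | Reach P g e h}, (∀ i, h x ∉ frontier (P i)) ∧
      ∀ i j, (g i * h) x ∉ frontier (g j '' P j) := by
    refine (eventually_all_finite hfin).2 fun h _ => Filter.Eventually.and ?_ ?_
    · refine eventually_all.2 fun i => ?_
      have h1 := compl_frontier_residual ((hPo i).preimage h.continuous)
      filter_upwards [h1] with x hx hx'
      refine hx ?_
      have h2 : frontier (h ⁻¹' P i) = h ⁻¹' frontier (P i) :=
        (h.toHomeomorph.preimage_frontier (P i)).symm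
      rw [h2]; exact hx'
    · refine eventually_all.2 fun i => eventually_all.2 fun j => ?_
      have h1 := compl_frontier_residual ((hgo j).preimage (g i * h).continuous)
      filter_upwards [h1] with x hx hx'
      refine hx ?_
      have h2 : frontier ((g i * h) ⁻¹' (g j '' P j)) = (g i * h) ⁻¹' frontier (g j '' P j) :=
        ((g i * h).toHomeomorph.preimage_frontier (g j '' P j)).symm
      rw [h2]; exact hx'
  have hdense := dense_of_mem_residual hgen
  have hOe : ∀ᶠ x in 𝓝 e, x ∈ O := hOo.mem_nhds heO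
  obtain ⟨r, hr, hrO⟩ := Metric.eventually_nhds_iff_ball.1 hOe
  set ρ := min r δ with hρ
  have hρ0 : 0 < ρ := lt_min hr hδ
  obtain ⟨x, hx, hxg⟩ := hdense.inter_open_nonempty (Ioo (e - ρ) e) isOpen_Ioo
    (nonempty_Ioo.2 (by linarith))
  obtain ⟨x', hx', hxg'⟩ := hdense.inter_open_nonempty (Ioo e (e + ρ)) isOpen_Ioo
    (nonempty_Ioo.2 (by linarith))
  have hρr : ρ ≤ r := min_le_left _ _
  have hρδ : ρ ≤ δ := min_le_right _ _
  have hxO : x ∈ O := hrO x (by
    rw [Metric.mem_ball, Real.dist_eq, abs_lt]; constructor <;> linarith [hx.1, hx.2])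
  have hxO' : x' ∈ O := hrO x' (by
    rw [Metric.mem_ball, Real.dist_eq, abs_lt]; constructor <;> linarith [hx'.1, hx'.2])
  have hxX : x ∈ X := hj1 x ⟨by linarith [hx.1], hx.2⟩
  have hxX' : x' ∉ X := hj2 x' ⟨hx'.1, by linarith [hx'.2]⟩
  -- the two counts
  set SX : ℝ → Set (ℝ ≃ᵢ ℝ) := fun z => {h | Reach P g e h ∧ h z ∈ X} with hSX
  set SY : ℝ → Set (ℝ ≃ᵢ ℝ) := fun z => {k | (∃ h i, Reach P g e h ∧ h e ∈ frontier (P i) ∧
    k = g i * h) ∧ k z ∈ Y} with hSY
  have hcount : ∀ z, z ∈ O → (∀ h ∈ {h | Reach P g e h}, (∀ i, h z ∉ frontier (P i)) ∧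
      ∀ i j, (g i * h) z ∉ frontier (g j '' P j)) → (SX z).ncard = (SY z).ncard := by
    intro z hzO hzg
    obtain ⟨hA, hB, hC, hD⟩ := hO z hzO
    have hpiece : ∀ h, Reach P g e h ∧ h z ∈ X → ∃ i, h z ∈ P i := by
      rintro h ⟨hh, hhz⟩
      rw [← hX] at hhz
      exact mem_piece (interior_subset hhz) (hzg h hh).1
    refine Set.ncard_congr (fun h hh => g (hpiece h hh).choose * h) ?_ ?_ ?_
    · intro h hh
      have hi := (hpiece h hh).choose_spec
      set i := (hpiece h hh).choose
      have h1 : h e ∈ frontier (P i) := by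
        rw [(hPo i).frontier_eq]
        exact ⟨hA h hh.1 i hi, hout h hh.1 i⟩
      exact ⟨⟨h, i, hh.1, h1, rfl⟩, hPY i ⟨h z, hi, rfl⟩⟩
    · intro h h' hh hh' heq
      have hi := (hpiece h hh).choose_spec
      have hi' := (hpiece h' hh').choose_spec
      set i := (hpiece h hh).choose
      set i' := (hpiece h' hh').choose
      have hii : i = i' := by
        by_contra hne
        refine (hgd hne).le_bot ⟨⟨h z, hi, rfl⟩, ⟨h' z, hi', ?_⟩⟩
        have := congrArg (fun k : ℝ ≃ᵢ ℝ => k z) heq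
        exact this.symm
      have heq' : g i * h = g i' * h' := heq
      rw [hii] at heq'
      exact mul_left_cancel heq'
    · rintro k ⟨⟨h, i, hh, hi, rfl⟩, hk⟩
      rw [← hY] at hk
      obtain ⟨j, y, hy, hyz⟩ := mem_piece (interior_subset hk) ((hzg h hh).2 i)
      have hyz' : ((g j)⁻¹ * (g i * h)) z = y := by
        have : (g j)⁻¹ ((g i * h) z) = (g j)⁻¹ (g j y) := by rw [hyz]
        rw [IsometryEquiv.inv_apply_self] at this
        exact this
      have hcl := hB h hh i j (by rw [hyz']; exact hy)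
      have hfr : ((g j)⁻¹ * (g i * h)) e ∈ frontier (P j) := by
        rw [(hPo j).frontier_eq]
        refine ⟨hcl, fun hmem => ?_⟩
        have hmem' : (g i * h) e ∈ g j '' P j := ⟨_, hmem, IsometryEquiv.apply_inv_self _ _⟩
        by_cases hij : i = j
        · subst hij
          have : ((g i)⁻¹ * (g i * h)) = h := by group
          rw [this] at hmem
          exact notMem_of_frontier_self (hPo i) hi hmem
        · have h1 : (g i * h) e ∈ frontier (g i '' P i) := by
            have h2 : frontier (g i '' P i) = g i '' frontier (P i) :=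
              ((g i).toHomeomorph.image_frontier (P i)).symm
            rw [h2]
            exact ⟨h e, hi, rfl⟩
          exact notMem_of_frontier (hgo j) (hgd (Ne.symm hij)) h1 hmem'
      have hR := Reach.step i j hh hi hfr
      have hzX : ((g j)⁻¹ * (g i * h)) z ∈ P j := by rw [hyz']; exact hy
      refine ⟨(g j)⁻¹ * (g i * h), ⟨hR, hPX j hzX⟩, ?_⟩
      have hc := (hpiece _ ⟨hR, hPX j hzX⟩).choose_spec
      set c := (hpiece _ ⟨hR, hPX j hzX⟩).choose
      have hcj : c = j := by
        by_contra hne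
        exact (hPd hne).le_bot ⟨hc, hzX⟩
      show g c * ((g j)⁻¹ * (g i * h)) = g i * h
      rw [hcj]; group
  have hYY : SY x = SY x' := by
    obtain ⟨_, _, _, hD⟩ := hO x hxO
    obtain ⟨_, _, _, hD'⟩ := hO x' hxO'
    ext k
    constructor
    · rintro ⟨⟨h, i, hh, hi, rfl⟩, hk⟩
      exact ⟨⟨h, i, hh, hi, rfl⟩, (hD' h hh i).2 ((hD h hh i).1 hk)⟩
    · rintro ⟨⟨h, i, hh, hi, rfl⟩, hk⟩
      exact ⟨⟨h, i, hh, hi, rfl⟩, (hD h hh i).2 ((hD' h hh i).1 hk)⟩
  have hXX : SX x = insert 1 (SX x') := by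
    obtain ⟨_, _, hC, _⟩ := hO x hxO
    obtain ⟨_, _, hC', _⟩ := hO x' hxO'
    ext h
    constructor
    · rintro ⟨hh, hk⟩
      by_cases h1 : h = 1
      · exact Or.inl h1
      · exact Or.inr ⟨hh, (hC' h hh h1).2 ((hC h hh h1).1 hk)⟩
    · rintro (rfl | ⟨hh, hk⟩)
      · exact ⟨Reach.one, hxX⟩
      · by_cases h1 : h = 1
        · subst h1; exact absurd hk hxX'
        · exact ⟨hh, (hC h hh h1).2 ((hC' h hh h1).1 hk)⟩
  have hn1 : (1 : ℝ ≃ᵢ ℝ) ∉ SX x' := fun h => hxX' h.2
  have hfin' : (SX x').Finite := hfin.subset fun h hh => hh.1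
  have e1 := hcount x hxO hxg
  have e2 := hcount x' hxO' hxg'
  rw [hXX, Set.ncard_insert_of_notMem hn1 hfin', hYY] at e1
  omega

end Pool.Agent.RGQ54
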