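import Pool.Agent.RGQ54.Fin
import Pool.Agent.RGQ54.Den

/-!
# Rogers' set and equidecompositions by open pieces
-/

open Set Filter Topology

namespace Pool.Agent.RGQ54

/-- Rogers' set `(1/3, 2/3) ∪ (7/9, 8/9) ∪ (25/27, 26/27) ∪ …`. -/
def A : Set ℝ := ⋃ k : ℕ, Ioo (1 - 2 / (3 : ℝ) ^ (k + 1)) (1 - 1 / (3 : ℝ) ^ (k + 1))

/-- The pairwise disjoint bounded open pieces `P i` and the isometries `g i` of the line take `X` to
`Y`: the images of the pieces are pairwise disjoint, the interior of the closure of the union of the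
pieces is `X`, and the interior of the closure of the union of their images is `Y`. -/
structure Equidecomposition {n : ℕ} (P : Fin n → Set ℝ) (g : Fin n → ℝ ≃ᵢ ℝ) (X Y : Set ℝ) :
    Prop where
  bounded : ∀ i, Bornology.IsBounded (P i)
  isOpen : ∀ i, IsOpen (P i)
  disjoint : Pairwise (fun i j => Disjoint (P i) (P j))
  disjoint_image : Pairwise (fun i j => Disjoint (g i '' P i) (g j '' P j))
  join : interior (closure (⋃ i, P i)) = X
  join_image : interior (closure (⋃ i, g i '' P i)) = Y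

theorem pow_pos' (k : ℕ) : (0 : ℝ) < 3 ^ k := by positivity

theorem antitone_inv {j k : ℕ} (h : j ≤ k) : 1 / (3 : ℝ) ^ k ≤ 1 / 3 ^ j :=
  one_div_le_one_div_of_le (pow_pos' j) (pow_le_pow_right₀ (by norm_num) h)

theorem two_div (k : ℕ) : 2 / (3 : ℝ) ^ k = 2 * (1 / 3 ^ k) := by ring

theorem inv_succ (k : ℕ) : 1 / (3 : ℝ) ^ k = 3 * (1 / 3 ^ (k + 1)) := by
  rw [pow_succ]; field_simp

theorem frontier_A {y : ℝ} (hy : y ∈ frontier A) :
    y = 1 ∨ ∃ j : ℕ, y = 1 - 2 / (3 : ℝ) ^ (j + 1) ∨ y = 1 - 1 / (3 : ℝ) ^ (j + 1) := by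
  have hAo : IsOpen A := isOpen_iUnion fun k => isOpen_Ioo
  have hy1 : y ∉ A := notMem_of_frontier_self hAo hy
  have hle : y ≤ 1 := by
    have h1 : A ⊆ Iic 1 := by
      intro x hx
      obtain ⟨k, hk⟩ := mem_iUnion.1 hx
      have h2 : 0 < 1 / (3 : ℝ) ^ (k + 1) := by positivity
      have h3 : x < 1 - 1 / (3 : ℝ) ^ (k + 1) := hk.2
      show x ≤ 1
      linarith
    exact closure_minimal h1 isClosed_Iic hy.1
  rcases hle.eq_or_lt with h1 | h1
  · exact Or.inl h1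
  right
  -- only finitely many intervals are near `y`
  obtain ⟨K, hK⟩ : ∃ K : ℕ, 2 * (1 / (3 : ℝ) ^ (K + 1)) < 1 - y := by
    obtain ⟨K, hK⟩ := exists_pow_lt_of_lt_one (show 0 < (1 - y) / 2 by linarith)
      (show (1 / 3 : ℝ) < 1 by norm_num)
    refine ⟨K, ?_⟩
    rw [one_div_pow] at hK
    have := antitone_inv (show K ≤ K + 1 by omega)
    linarith
  have hyc : y ∈ Iio (1 - 2 / (3 : ℝ) ^ (K + 1)) := by
    rw [two_div]; show y < _; linarith
  have h2 : y ∈ closure (Iio (1 - 2 / (3 : ℝ) ^ (K + 1)) ∩ A) :=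
    isOpen_Iio.inter_closure ⟨hyc, hy.1⟩
  have h3 : Iio (1 - 2 / (3 : ℝ) ^ (K + 1)) ∩ A ⊆
      ⋃ k ∈ Set.Iio K, Icc (1 - 2 / (3 : ℝ) ^ (k + 1)) (1 - 1 / (3 : ℝ) ^ (k + 1)) := by
    rintro x ⟨hx, hxA⟩
    obtain ⟨k, hk⟩ := mem_iUnion.1 hxA
    refine mem_biUnion (x := k) ?_ (Ioo_subset_Icc_self hk)
    by_contra hkK
    have h4 : K ≤ k := not_lt.1 hkK
    have h5 := antitone_inv (Nat.succ_le_succ h4)
    have h6 := hk.1
    rw [two_div] at h6
    have h7 : x < 1 - 2 / (3 : ℝ) ^ (K + 1) := hx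
    rw [two_div] at h7
    simp only [Nat.succ_eq_add_one] at h5
    linarith
  have h4 : IsClosed (⋃ k ∈ Set.Iio K, Icc (1 - 2 / (3 : ℝ) ^ (k + 1)) (1 - 1 / (3 : ℝ) ^ (k + 1))) :=
    (Set.finite_Iio K).isClosed_biUnion fun k _ => isClosed_Icc
  have h5 := closure_minimal h3 h4 h2
  obtain ⟨k, _, hk⟩ := mem_iUnion₂.1 h5
  refine ⟨k, ?_⟩
  rcases hk.1.eq_or_lt with h6 | h6
  · exact Or.inl h6.symm
  rcases hk.2.eq_or_lt with h7 | h7
  · exact Or.inr h7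
  · have h8 : y ∈ A := mem_iUnion.2 ⟨k, ⟨h6, h7⟩⟩
    exact absurd h8 hy1

theorem jump_A (k : ℕ) : (1 - 1 / (3 : ℝ) ^ (k + 1)) ∉ A ∧ ∃ δ > 0,
    (∀ x ∈ Ioo (1 - 1 / (3 : ℝ) ^ (k + 1) - δ) (1 - 1 / (3 : ℝ) ^ (k + 1)), x ∈ A) ∧
    ∀ x ∈ Ioo (1 - 1 / (3 : ℝ) ^ (k + 1)) (1 - 1 / (3 : ℝ) ^ (k + 1) + δ), x ∉ A := by
  have hk2 : 0 < 1 / (3 : ℝ) ^ (k + 2) := by positivity
  have e1 := inv_succ (k + 1)
  have hright : ∀ x : ℝ, 1 - 1 / (3 : ℝ) ^ (k + 1) ≤ x →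
      x < 1 - 1 / (3 : ℝ) ^ (k + 1) + 1 / 3 ^ (k + 2) → x ∉ A := by
    intro x hx1 hx2 hxA
    obtain ⟨j, hj⟩ := mem_iUnion.1 hxA
    rcases Nat.lt_or_ge k j with h1 | h1
    · have h2 := antitone_inv (show k + 2 ≤ j + 1 by omega)
      have h3 := hj.1
      rw [two_div] at h3
      linarith
    · have h2 := antitone_inv (show j + 1 ≤ k + 1 by omega)
      linarith [hj.2]
  refine ⟨hright _ le_rfl (by linarith), 1 / 3 ^ (k + 2), hk2, fun x hx => ?_, fun x hx =>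
    hright x hx.1.le hx.2⟩
  refine mem_iUnion.2 ⟨k, ?_, hx.2⟩
  rw [two_div]
  linarith [hx.1]

theorem reach_zero_mem {n : ℕ} {P : Fin n → Set ℝ} {g : Fin n → ℝ ≃ᵢ ℝ} {e : ℝ}
    {T : AddSubgroup ℝ} (hT : ∀ i, g i 0 ∈ T) {h : ℝ ≃ᵢ ℝ} (hh : Reach P g e h) : h 0 ∈ T := by
  induction hh with
  | one => exact T.zero_mem
  | step i j _ _ _ ih =>
    have h1 : ∀ (f k : ℝ ≃ᵢ ℝ), f 0 ∈ T → k 0 ∈ T → (f * k) 0 ∈ T := by
      intro f k hf hk
      obtain ⟨σ, _, hx⟩ := iso_form f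
      have h2 : (f * k) 0 = (σ : ℝ) * k 0 + f 0 := hx (k 0)
      rw [h2, ← zsmul_eq_mul]
      exact T.add_mem (T.zsmul_mem hk _) hf
    have h2 : (g j)⁻¹ 0 ∈ T := by
      have h3 := move_mem (G := T) (g := 1) (h := g j) (by
        have h4 : (1 : ℝ ≃ᵢ ℝ) 0 = 0 := rfl
        rw [h4, zero_sub]; exact T.neg_mem (hT j))
      rwa [mul_one] at h3
    exact h1 _ _ h2 (h1 _ _ (hT i) ih)

/-- If Rogers' set `A` is taken to a set with a finite boundary, then infinitely many motions are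
reached from some point. -/
theorem finite_false {n : ℕ} {P : Fin n → Set ℝ} {g : Fin n → ℝ ≃ᵢ ℝ} {Y : Set ℝ}
    (h : Equidecomposition P g A Y) (hY : (frontier Y).Finite)
    (hfin : ∀ e : ℝ, {h | Reach P g e h}.Finite) : False := by
  set T : AddSubgroup ℝ := AddSubgroup.closure (range (fun i => g i 0)) with hTdef
  have hgT : ∀ i, g i 0 ∈ T := fun i => AddSubgroup.subset_closure ⟨i, rfl⟩
  obtain ⟨N, hN, hden⟩ := exists_den (Set.finite_range (fun i => g i 0))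
  have hT : ∀ r : ℚ, (r : ℝ) ∈ T → ∃ z : ℤ, (N : ℚ) * r = z := hden
  -- a far right end point which is equivalent to no boundary point of `Y`
  obtain ⟨k, hk, hkY⟩ : ∃ k : ℕ, N < 3 ^ k ∧ ∀ σ : ℤ, (σ = 1 ∨ σ = -1) →
      ∀ t ∈ T, (σ : ℝ) * (1 - 1 / 3 ^ (k + 1)) + t ∉ frontier Y := by
    by_contra hno
    push Not at hno
    have hN3 : ∀ k : ℕ, N < 3 ^ (N + k) := fun k =>
      (Nat.lt_pow_self (by norm_num)).trans_le (Nat.pow_le_pow_right (by norm_num) (by omega))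
    have h1 : ∀ k : ℕ, ∃ y : frontier Y, ∃ σ : ℤ, (σ = 1 ∨ σ = -1) ∧
        ∃ t ∈ T, (σ : ℝ) * (1 - 1 / 3 ^ (N + k + 1)) + t = y := fun k => by
      obtain ⟨σ, hσ, t, ht, hy⟩ := hno (N + k) (hN3 k)
      exact ⟨⟨_, hy⟩, σ, hσ, t, ht, rfl⟩
    choose y σ hσ t ht hy using h1
    have : Finite (frontier Y) := hY
    obtain ⟨k, k', hne, hkk⟩ := Finite.exists_ne_map_eq_of_infinite y
    have e1 := hy k
    have e2 := hy k'
    rw [hkk] at e1
    have hσσ : σ k' * σ k = 1 ∨ σ k' * σ k = -1 := by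
      rcases hσ k with h | h <;> rcases hσ k' with h' | h' <;> simp [h, h']
    have hs : ((σ k' : ℤ) : ℝ) * σ k' = 1 := by
      rcases hσ k' with h | h <;> simp [h]
    have ht' : (σ k' : ℝ) * (t k - t k') ∈ T := by
      rw [← zsmul_eq_mul]
      exact AddSubgroup.zsmul_mem _ (AddSubgroup.sub_mem _ (ht k) (ht k')) _
    have h3 := lonely hN (hN3 k) hT hσσ ht' (d := 2) (a := 1) (j := N + k') (Or.inr (Or.inl rfl)) (by
      push_cast
      have h4 : (σ k : ℝ) * (1 - 1 / 3 ^ (N + k + 1)) + t k =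
        (σ k' : ℝ) * (1 - 1 / 3 ^ (N + k' + 1)) + t k' := e1.trans e2.symm
      linear_combination (σ k' : ℝ) * h4 + (1 - 1 / (3 : ℝ) ^ (N + k' + 1)) * hs)
    exact hne (by omega)
  obtain ⟨heA, hjump⟩ := jump_A k
  refine reach_infinite h.isOpen h.disjoint h.disjoint_image h.join h.join_image heA
    (fun f hf h1 hfr => ?_) (fun f i hf hfr => ?_) hjump (hfin _)
  · -- boundary points of `A`
    obtain ⟨σ, hσ, hx⟩ := iso_form f
    have hf0 := reach_zero_mem hgT hf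
    rw [hx] at hfr
    have hconc : ∀ (d a : ℤ) (j : ℕ), (a = 0 ∨ a = 1 ∨ a = 2) →
        (σ : ℝ) * (1 - 1 / 3 ^ (k + 1)) + f 0 = d / 2 - a / 3 ^ (j + 1) →
        d = 2 → False := by
      intro d a j ha heq hd
      obtain ⟨rfl, rfl, rfl⟩ := lonely hN hk hT hσ hf0 ha heq
      subst hd
      apply h1
      refine IsometryEquiv.ext fun x => ?_
      rw [hx]
      show _ = x
      push_cast at heq ⊢
      linarith
    rcases frontier_A hfr with h2 | ⟨j, h2 | h2⟩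
    · exact hconc 2 0 0 (Or.inl rfl) (by rw [h2]; push_cast; ring) rfl
    · exact hconc 2 2 j (Or.inr (Or.inr rfl)) (by rw [h2]; push_cast; ring) rfl
    · exact hconc 2 1 j (Or.inr (Or.inl rfl)) (by rw [h2]; push_cast; ring) rfl
  · -- boundary points of `Y`
    obtain ⟨σ, hσ, hx⟩ := iso_form f
    obtain ⟨σ', hσ', hx'⟩ := iso_form (g i)
    have hfe : (g i * f) (1 - 1 / 3 ^ (k + 1)) = ((σ' * σ : ℤ) : ℝ) * (1 - 1 / 3 ^ (k + 1)) +
        ((σ' : ℝ) * f 0 + g i 0) := by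
      show g i (f _) = _
      rw [hx', hx]; push_cast; ring
    rw [hfe] at hfr
    refine hkY _ ?_ _ ?_ hfr
    · rcases hσ with h2 | h2 <;> rcases hσ' with h3 | h3 <;> simp [h2, h3]
    · refine AddSubgroup.add_mem _ ?_ (hgT i)
      rw [← zsmul_eq_mul]
      exact AddSubgroup.zsmul_mem _ (reach_zero_mem hgT hf) _

end Pool.Agent.RGQ54
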