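import Pool.Agent.RGQ54.Reach

/-!
# Translations from a group generated by two reals: only finitely many motions are reached
-/

open Set Filter Topology

namespace Pool.Agent.RGQ54

variable {n : ℕ}

theorem iso_form (h : ℝ ≃ᵢ ℝ) : ∃ σ : ℤ, (σ = 1 ∨ σ = -1) ∧ ∀ x : ℝ, h x = σ * x + h 0 := by
  have hs : ∀ x y : ℝ, (h x - h y) ^ 2 = (x - y) ^ 2 := fun x y => by
    have h1 := h.isometry.dist_eq x y
    rw [Real.dist_eq, Real.dist_eq] at h1
    rw [← sq_abs, h1, sq_abs]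
  have h1 := hs 1 0
  have key : ∀ x : ℝ, (h x - h 0) * (h 1 - h 0) = x := fun x => by
    have e1 := hs x 1
    have e2 := hs x 0
    linear_combination (-1 / 2 : ℝ) * (e1 - e2 - h1)
  have h2 : (h 1 - h 0) * (h 1 - h 0) = 1 := by
    have := h1; ring_nf at this ⊢; linarith
  rcases mul_self_eq_one_iff.1 h2 with h3 | h3
  · refine ⟨1, Or.inl rfl, fun x => ?_⟩
    have := key x
    rw [h3] at this
    push_cast
    linarith
  · refine ⟨-1, Or.inr rfl, fun x => ?_⟩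
    have := key x
    rw [h3] at this
    push_cast
    linarith

/-- `h x = σ x + u α + v β` with a sign `σ`. -/
def Rep (α β : ℝ) (h : ℝ ≃ᵢ ℝ) (σ u v : ℤ) : Prop :=
  (σ = 1 ∨ σ = -1) ∧ ∀ x : ℝ, h x = σ * x + (u * α + v * β)

theorem Rep.one (α β : ℝ) : Rep α β 1 1 0 0 := by
  refine ⟨Or.inl rfl, fun x => ?_⟩
  show x = _
  push_cast; ring

theorem Rep.mul {α β : ℝ} {g h : ℝ ≃ᵢ ℝ} {σ u v σ' u' v' : ℤ} (hg : Rep α β g σ u v)
    (hh : Rep α β h σ' u' v') : Rep α β (g * h) (σ * σ') (σ * u' + u) (σ * v' + v) := by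
  refine ⟨?_, fun x => ?_⟩
  · rcases hg.1 with h1 | h1 <;> rcases hh.1 with h2 | h2 <;> simp [h1, h2]
  · show g (h x) = _
    rw [hg.2, hh.2]; push_cast; ring

theorem Rep.inv {α β : ℝ} {g : ℝ ≃ᵢ ℝ} {σ u v : ℤ} (hg : Rep α β g σ u v) :
    Rep α β g⁻¹ σ (-(σ * u)) (-(σ * v)) := by
  refine ⟨hg.1, fun x => ?_⟩
  apply g.injective
  rw [IsometryEquiv.apply_inv_self, hg.2]
  have h1 : (σ : ℝ) * σ = 1 := by rcases hg.1 with h | h <;> simp [h]
  push_cast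
  linear_combination (-x + (u : ℝ) * α + v * β) * h1

theorem rep_of_mem {α β : ℝ} {g : ℝ ≃ᵢ ℝ} (hg : g 0 ∈ AddSubgroup.closure ({α, β} : Set ℝ)) :
    ∃ σ u v : ℤ, Rep α β g σ u v := by
  obtain ⟨σ, hσ, h⟩ := iso_form g
  obtain ⟨u, v, huv⟩ := AddSubgroup.mem_closure_pair.1 hg
  refine ⟨σ, u, v, hσ, fun x => ?_⟩
  rw [h x, ← huv, zsmul_eq_mul, zsmul_eq_mul]

theorem mem_of_rep {α β : ℝ} {g : ℝ ≃ᵢ ℝ} {σ u v : ℤ} (h : Rep α β g σ u v) :
    (u * α + v * β : ℝ) ∈ AddSubgroup.closure ({α, β} : Set ℝ) := by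
  refine AddSubgroup.mem_closure_pair.2 ⟨u, v, ?_⟩
  rw [zsmul_eq_mul, zsmul_eq_mul]

theorem chain {P : Fin n → Set ℝ} {g : Fin n → ℝ ≃ᵢ ℝ} {e α β : ℝ} {s a b : Fin n → Fin n → ℤ}
    (hr : ∀ i j, Rep α β ((g j)⁻¹ * g i) (s i j) (a i j) (b i j)) {L : ℕ}
    (hL : ∀ i j, |a i j| ≤ L) (h : ℝ ≃ᵢ ℝ) (hh : Reach P g e h) :
    ∃ σ u v, Rep α β h σ u v ∧ ∀ N : ℕ, (N : ℤ) ≤ |u| →
      ∃ h' σ' u' v', Reach P g e h' ∧ Rep α β h' σ' u' v' ∧ (N : ℤ) ≤ |u'| ∧ |u'| ≤ N + L := by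
  induction hh with
  | one =>
    refine ⟨1, 0, 0, Rep.one α β, fun N hN => ?_⟩
    refine ⟨1, 1, 0, 0, Reach.one, Rep.one α β, hN, ?_⟩
    rw [abs_zero]; positivity
  | @step h i j hh hi hj ih =>
    obtain ⟨σ, u, v, hσ, hN⟩ := ih
    have hrep := (hr i j).mul hσ
    have hstep := Reach.step i j hh hi hj
    rw [← mul_assoc] at hstep ⊢
    refine ⟨_, _, _, hrep, fun N hNu => ?_⟩
    by_cases hNu' : (N : ℤ) ≤ |u|
    · exact hN N hNu'
    · refine ⟨_, _, _, _, hstep, hrep, hNu, ?_⟩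
      have hs : |s i j| = 1 := by rcases (hr i j).1 with h | h <;> simp [h]
      have e2 : |s i j * u + a i j| ≤ |s i j * u| + |a i j| := abs_add_le _ _
      rw [abs_mul, hs, one_mul] at e2
      have e3 := hL i j
      push Not at hNu'
      linarith

/-- A bound for finitely many integers. -/
theorem exists_L (a : Fin n → Fin n → ℤ) : ∃ L : ℕ, ∀ i j, |a i j| ≤ L := by
  refine ⟨∑ i, ∑ j, (a i j).natAbs, fun i j => ?_⟩
  have h1 : (a i j).natAbs ≤ ∑ j, (a i j).natAbs :=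
    Finset.single_le_sum (f := fun j => (a i j).natAbs) (fun _ _ => Nat.zero_le _)
      (Finset.mem_univ j)
  have h2 : ∑ j, (a i j).natAbs ≤ ∑ i, ∑ j, (a i j).natAbs :=
    Finset.single_le_sum (f := fun i => ∑ j, (a i j).natAbs) (fun _ _ => Nat.zero_le _)
      (Finset.mem_univ i)
  rw [← Int.natCast_natAbs]
  exact_mod_cast h1.trans h2

/-- The motions `g j⁻¹ * g i` have translation parts in a group that contains all differences. -/
theorem move_mem {G : AddSubgroup ℝ} {g h : ℝ ≃ᵢ ℝ} (hd : g 0 - h 0 ∈ G) :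
    (h⁻¹ * g) 0 ∈ G := by
  obtain ⟨σ, hσ, hx⟩ := iso_form h
  have h1 : h ((h⁻¹ * g) 0) = g 0 := IsometryEquiv.apply_inv_self _ _
  rw [hx] at h1
  have h2 : (σ : ℝ) * ((h⁻¹ * g) 0) = g 0 - h 0 := by linarith
  have h3 : (h⁻¹ * g) 0 = (σ : ℝ) * (g 0 - h 0) := by
    rw [← h2]
    have h4 : (σ : ℝ) * σ = 1 := by rcases hσ with h | h <;> simp [h]
    rw [← mul_assoc, h4, one_mul]
  rw [h3, ← zsmul_eq_mul]
  exact AddSubgroup.zsmul_mem _ hd _

theorem finite_of_trans {S : Set ℝ} (hS : S.Finite) :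
    {h : ℝ ≃ᵢ ℝ | ∃ σ : ℤ, (σ = 1 ∨ σ = -1) ∧ ∃ τ ∈ S, ∀ x : ℝ, h x = σ * x + τ}.Finite := by
  have h1 : ∀ (σ : ℤ) (τ : ℝ), {h : ℝ ≃ᵢ ℝ | ∀ x : ℝ, h x = σ * x + τ}.Finite := fun σ τ =>
    Set.Subsingleton.finite fun h hh h' hh' => IsometryEquiv.ext fun x => by rw [hh x, hh' x]
  refine ((hS.biUnion fun τ _ => h1 1 τ).union (hS.biUnion fun τ _ => h1 (-1) τ)).subset ?_
  rintro h ⟨σ, rfl | rfl, τ, hτ, hx⟩
  · exact Or.inl (mem_biUnion hτ hx)
  · exact Or.inr (mem_biUnion hτ hx)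

theorem affine_residual {U : Set ℝ} (hU : IsOpen U) {s : ℤ} (hs : s = 1 ∨ s = -1) (c : ℝ) :
    ∀ᶠ x in residual ℝ, (s : ℝ) * (x + c) ∉ frontier U := by
  rcases hs with rfl | rfl
  · have h1 := compl_frontier_residual (hU.preimage (Homeomorph.addRight c).continuous)
    rw [← Homeomorph.preimage_frontier] at h1
    filter_upwards [h1] with x hx hx'
    refine hx ?_
    change x + c ∈ frontier U
    simpa using hx'
  · have h1 := compl_frontier_residual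
      (hU.preimage ((Homeomorph.addRight c).trans (Homeomorph.neg ℝ)).continuous)
    rw [← Homeomorph.preimage_frontier] at h1
    filter_upwards [h1] with x hx hx'
    refine hx ?_
    change -(x + c) ∈ frontier U
    have : ((-1 : ℤ) : ℝ) * (x + c) = -(x + c) := by push_cast; ring
    rwa [this] at hx'

end Pool.Agent.RGQ54
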